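import Pool.Agent.Y661.HE.Stm

/-!
# Project HE, part MEN: mean zero of the right hand sides
-/

set_option autoImplicit false

open scoped BigOperators ENNReal
open MeasureTheory Filter

namespace Pool.Agent.Y914.HE.MEN

open Pool.Agent.Y661.HE
open Pool.Agent.H12R2.And (V ee Q pot PP Dep Good)
open Pool.Agent.H4R2.HD (Av Gn ind)

lemma meas_sh {d : ℕ} (a : V d) : Measurable (fun (W : V d → ℝ) (y : V d) => W (y + a)) := by
  fun_prop

lemma map_sh {d : ℕ} (μ : Measure ℝ) [IsProbabilityMeasure μ] (a : V d) :
    (PI d μ).map (fun W y => W (y + a)) = PI d μ := by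
  have h := Measure.map_infinitePi_infinitePi_of_inj
    (P := fun _ : V d => μ) (f := fun y : V d => y + a) (add_left_injective a)
  exact h

lemma int_sh {d : ℕ} (μ : Measure ℝ) [IsProbabilityMeasure μ] (a : V d) (F : (V d → ℝ) → ℝ)
    (hF : Measurable F) : ∫ W, F (fun y => W (y + a)) ∂(PI d μ) = ∫ W, F W ∂(PI d μ) := by
  have h := integral_map (μ := PI d μ) (meas_sh a).aemeasurable (f := F)
    hF.aestronglyMeasurable
  rw [map_sh] at h
  exact h.symm

lemma ae_bd {d : ℕ} (μ : Measure ℝ) [IsProbabilityMeasure μ] (c : ℝ) (hc : ∀ᵐ t ∂μ, |t| ≤ c) :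
    ∀ᵐ W ∂(PI d μ), Bd c W := by
  unfold Bd
  rw [ae_all_iff]
  intro x
  exact (measurePreserving_eval_infinitePi (fun _ : V d => μ) x).quasiMeasurePreserving.ae hc

/-- the integral of the averages -/
lemma int_Av {d : ℕ} (P : Measure (V d → ℝ)) [IsFiniteMeasure P]
    (F : (V d → ℝ) → V d → ℝ) (hF : ∀ x, Integrable (fun W => F W x) P)
    (h0 : ∀ x, ∫ W, F W x ∂P = 0) (m : ℕ) : ∀ x, Integrable (fun W => (Av^[m] (F W)) x) P ∧
      ∫ W, (Av^[m] (F W)) x ∂P = 0 := by
  induction m with
  | zero => exact fun x => ⟨hF x, h0 x⟩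
  | succ m ih =>
    intro x
    have e : ∀ W, (Av^[m + 1] (F W)) x = (∑ i : Fin d, ((Av^[m] (F W)) (x + ee i) +
        (Av^[m] (F W)) (x - ee i))) / (2 * d) := by
      intro W
      rw [Function.iterate_succ_apply']
      rfl
    simp only [e]
    have hi : ∀ i : Fin d, Integrable (fun W => (Av^[m] (F W)) (x + ee i) +
        (Av^[m] (F W)) (x - ee i)) P := fun i => (ih _).1.add (ih _).1
    refine ⟨(integrable_finsetSum _ fun i _ => hi i).div_const _, ?_⟩
    rw [integral_div, integral_finsetSum _ fun i _ => hi i]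
    have : ∀ i : Fin d, ∫ W, ((Av^[m] (F W)) (x + ee i) + (Av^[m] (F W)) (x - ee i)) ∂P = 0 := by
      intro i
      rw [integral_add (ih _).1 (ih _).1, (ih _).2, (ih _).2, add_zero]
    rw [Finset.sum_congr rfl fun i _ => this i, Finset.sum_const_zero, zero_div]

theorem main (hB : S_BND) (hM : S_MEA) (hC : S_COV) : S_MEN := by
  intro d hd N c μ _ hc
  obtain ⟨t, ht⟩ := hc.exists
  have hc0 : 0 ≤ c := (abs_nonneg t).trans ht
  set P := PI d μ with hP
  have hbd : ∀ᵐ W ∂P, Bd c W := ae_bd μ c hc
  obtain ⟨-, hbu⟩ := hB hd N c P hc0 hbd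
  -- everything is integrable
  have hun : ∀ n x, Integrable (fun W => un N P n W x) P := by
    intro n x
    refine Integrable.of_bound ((hM N P n 0 x).1).aestronglyMeasurable
      (catalan n * (c * N / d) ^ n) ?_
    filter_upwards [hbd] with W hW
    exact (hbu W hW n x).1
  have hgn : ∀ n x, Integrable (fun W => gn N P n W x) P := by
    intro n x
    refine Integrable.of_bound ((hM N P n 0 x).2.1).aestronglyMeasurable
      (2 * c * catalan (n + 1) * (c * N / d) ^ n) ?_
    filter_upwards [hbd] with W hW
    exact (hbu W hW n x).2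
  have hWm : ∀ n x, Measurable (fun W : V d → ℝ => W x * un N P n W x) := fun n x =>
    (measurable_pi_apply x).mul (hM N P n 0 x).1
  have hWun : ∀ n x, Integrable (fun W => W x * un N P n W x) P := by
    intro n x
    refine Integrable.of_bound (hWm n x).aestronglyMeasurable
      (c * (catalan n * (c * N / d) ^ n)) ?_
    filter_upwards [hbd] with W hW
    rw [Real.norm_eq_abs, abs_mul]
    exact mul_le_mul (hW x) (hbu W hW n x).1 (abs_nonneg _) hc0
  -- covariance
  have hcov : ∀ n x, ∫ W, W x * un N P n W x ∂P = en N P (n + 1) := by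
    intro n x
    have h := int_sh μ x (fun W => W 0 * un N P n W 0) (hWm n 0)
    have e : ∀ W : V d → ℝ, (fun y => W (y + x)) 0 * un N P n (fun y => W (y + x)) 0 =
        W x * un N P n W x := by
      intro W
      rw [(hC N P n x 0 W).1]
      simp only [zero_add]
    simp only [e] at h
    rw [hP, h]
    rfl
  -- the induction
  have key : ∀ n, ∀ x, ∫ W, gn N P n W x ∂P = 0 ∧ ∫ W, un N P (n + 1) W x ∂P = 0 := by
    intro n
    induction n using Nat.strong_induction_on with
    | _ n ih =>
      have hg : ∀ x, ∫ W, gn N P n W x ∂P = 0 := by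
        intro x
        unfold gn
        have hk : ∀ k ∈ Finset.range (n + 1), Integrable (fun W =>
            en N P (k + 1) * un N P (n - k) W x) P := fun k _ => (hun _ x).const_mul _
        have hn : Integrable (fun W => -(W x * un N P n W x)) P := (hWun n x).neg
        rw [integral_add hn (integrable_finsetSum _ hk), integral_neg, hcov,
          integral_finsetSum _ hk]
        rw [Finset.sum_range_succ, Finset.sum_eq_zero]
        · rw [integral_const_mul, Nat.sub_self]
          have : ∀ W : V d → ℝ, un N P 0 W x = 1 := fun W => un_zero N P W x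
          simp only [this, integral_const, probReal_univ, smul_eq_mul, mul_one]
          ring
        · intro k hk'
          rw [Finset.mem_range] at hk'
          rw [integral_const_mul]
          obtain ⟨j, hj⟩ : ∃ j, n - k = j + 1 := ⟨n - k - 1, by omega⟩
          rw [hj, (ih j (by omega) x).2, mul_zero]
      intro x
      refine ⟨hg x, ?_⟩
      have hA := int_Av P (fun W => gn N P n W) (hgn n) hg
      have e : ∀ W : V d → ℝ, un N P (n + 1) W x =
          (∑ j ∈ Finset.range N, (Av^[j] (gn N P n W)) x) / (2 * d) := by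
        intro W
        rw [un_succ]
        rfl
      simp only [e]
      rw [integral_div, integral_finsetSum _ fun j _ => (hA j x).1,
        Finset.sum_eq_zero fun j _ => (hA j x).2, zero_div]
  intro n x
  exact ⟨(key n x).2, (key n x).1,
    (int_Av P (fun W => gn N P n W) (hgn n) (fun y => (key n y).1) N x).2⟩

end Pool.Agent.Y914.HE.MEN
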